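import Pool.Agent.Helper21.MP.Defs2

/-!
# The price of a function of few weights
-/

set_option autoImplicit false

open Finset

namespace Pool.Agent.Helper28.MP2

open Pool.Agent.Helper21.MP2

open Classical in
theorem cells {n : ℕ} (Q s : Finset (Fin n × Fin n))
    (hs : ∀ x ∈ s, (x.1 : ℕ) % 3 = 0 ∧ (x.2 : ℕ) % 3 ≠ 0 ∧ Has Q x.1 x.2) : s.card ≤ Q.card := by
  refine Finset.card_le_card_of_injOn (fun x => if x ∈ Q then x else x.swap) ?_ ?_
  · intro x hx
    rw [Finset.mem_coe] at hx ⊢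
    change (if x ∈ Q then x else x.swap) ∈ Q
    by_cases h : x ∈ Q
    · rwa [if_pos h]
    · rw [if_neg h]
      rcases (hs x hx).2.2 with h1 | h1
      · exact absurd h1 h
      · exact h1
  · intro x hx y hy hxy
    change (if x ∈ Q then x else x.swap) = (if y ∈ Q then y else y.swap) at hxy
    have hx' := hs x hx
    have hy' := hs y hy
    by_cases h : x ∈ Q
    · by_cases h' : y ∈ Q
      · rwa [if_pos h, if_pos h'] at hxy
      · rw [if_pos h, if_neg h'] at hxy
        rw [hxy] at hx'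
        exact absurd hx'.1 hy'.2.1
    · by_cases h' : y ∈ Q
      · rw [if_neg h, if_pos h'] at hxy
        rw [← hxy] at hy'
        exact absurd hy'.1 hx'.2.1
      · rw [if_neg h, if_neg h'] at hxy
        exact Prod.swap_injective hxy

theorem pairs_le {n : ℕ} (Q : Finset (Fin n × Fin n)) : pairs Q ≤ Q.card * min Q.card n := by
  classical
  unfold pairs
  set T := univ.filter fun t : Fin n × Fin n × Fin n => ((t.1 : ℕ) % 3 = 0 ∧ (t.2.1 : ℕ) % 3 = 1 ∧
    (t.2.2 : ℕ) % 3 = 2) ∧ Has Q t.1 t.2.1 ∧ Has Q t.1 t.2.2 with hT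
  have h1 := Finset.card_le_mul_card_image (f := fun t : Fin n × Fin n × Fin n => (t.1, t.2.1))
    T (min Q.card n) (by
    intro b _
    refine le_min ?_ ?_
    · refine le_trans (le_of_eq ?_) (cells Q ((T.filter fun a => (a.1, a.2.1) = b).image
        fun t => (b.1, t.2.2)) ?_)
      · rw [Finset.card_image_of_injOn]
        intro x hx y hy hxy
        rw [Finset.mem_coe, Finset.mem_filter] at hx hy
        have e1 : x.2.2 = y.2.2 := (Prod.ext_iff.1 hxy).2
        have e2 := Prod.ext_iff.1 (hx.2.trans hy.2.symm)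
        exact Prod.ext e2.1 (Prod.ext e2.2 e1)
      · intro x hx
        rw [Finset.mem_image] at hx
        obtain ⟨y, hy, rfl⟩ := hx
        rw [Finset.mem_filter, hT, Finset.mem_filter] at hy
        obtain ⟨⟨_, ⟨hc0, _, hc2⟩, _, hH⟩, hyb⟩ := hy
        have e2 : y.1 = b.1 := (Prod.ext_iff.1 hyb).1
        rw [← e2]
        exact ⟨hc0, by rw [hc2]; norm_num, hH⟩
    · refine le_trans (le_of_eq (Finset.card_image_of_injOn (f := fun t : Fin n × Fin n × Fin n =>
        t.2.2) ?_).symm) ((Finset.card_le_univ _).trans (by rw [Fintype.card_fin]))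
      intro x hx y hy hxy
      rw [Finset.mem_coe, Finset.mem_filter] at hx hy
      have e2 := Prod.ext_iff.1 (hx.2.trans hy.2.symm)
      exact Prod.ext e2.1 (Prod.ext e2.2 hxy))
  refine h1.trans ?_
  rw [mul_comm]
  refine Nat.mul_le_mul_right _ (cells Q _ ?_)
  intro x hx
  rw [Finset.mem_image] at hx
  obtain ⟨y, hy, rfl⟩ := hx
  rw [hT, Finset.mem_filter] at hy
  obtain ⟨_, ⟨hc0, hc1, _⟩, hH, _⟩ := hy
  exact ⟨hc0, by rw [hc1]; norm_num, hH⟩

end Pool.Agent.Helper28.MP2
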