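import Pool.Agent.Helper28.MP.AS3

/-!
Local cyclic data of order `p ^ n` by Artin-Schreier towers inside a field: the induction.
-/

set_option autoImplicit false

namespace Pool.Agent.Helper28.MP

open Polynomial Pool.Agent.Helper13.MP

variable {Q V κ : Type*} [Field Q] [CommRing V] [CommRing κ]

/-- the invariant carried by the induction: local cyclic data with an element of trace `1`. -/
def Inv (P : Subring Q) (j : V →+* Q) (ε : V →+* κ) (m : ℕ) : Prop :=
  ∃ (R : Subring Q) (s : R ≃+* R) (x : R), P ≤ R ∧ (∀ r : R, (s ^ m) r = r) ∧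
    (∀ r : R, s r = r ↔ (r : Q) ∈ P) ∧ (∑ t ∈ Finset.range m, (s ^ t) x = 1) ∧
    ∀ t : ℕ, ∃ v : V, j v = (((s ^ t) x : R) : Q) ∧ ε v = if m ∣ t then 1 else 0

theorem step (p : ℕ) [Fact p.Prime] [CharP Q p] (P : Subring Q) (j : V →+* Q)
    (hj : Function.Injective j) (ε : V →+* κ)
    (hAS : ∀ b : V, ε b = 0 → ∃ Y : V, ε Y = 0 ∧ Y ^ p - Y = b) (m : ℕ) (hm : 0 < m)
    (R : Subring Q) (s : R ≃+* R) (x : R) (hPR : P ≤ R) (hsm : ∀ r : R, (s ^ m) r = r)
    (hfix : ∀ r : R, s r = r ↔ (r : Q) ∈ P) (htr : ∑ t ∈ Finset.range m, (s ^ t) x = 1)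
    (hv : ∀ t : ℕ, ∃ v : V, j v = (((s ^ t) x : R) : Q) ∧ ε v = if m ∣ t then 1 else 0)
    (b : R) (b0 : V) (hb0 : j b0 = b) (hεb : ε b0 = 0) (hb : s b - b = x ^ p - x)
    (hnr : ∀ a ∈ R, ∀ c ∈ R, c ≠ 0 → (a / c) ^ p - a / c ≠ b) :
    Inv P j ε (m * p) := by
  have hp : p.Prime := Fact.out
  have hp2 := hp.two_le
  obtain ⟨Y0, hY0, hY0b⟩ := hAS b0 hεb
  have hY : (j Y0) ^ p - j Y0 = b := by
    rw [← hb0, ← hY0b, map_sub, map_pow]
  obtain ⟨R', hR, s', Y', hY', hs'ι, hs'Y, hgen, hind⟩ := extend p R s x b hb (j Y0) hY hnr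
  set ι := Subring.inclusion hR with hι
  have hιcoe : ∀ r : R, ((ι r : R') : Q) = r := fun r => rfl
  have hιinj : Function.Injective ι := by
    intro r r' h
    apply Subtype.ext
    rw [← hιcoe, ← hιcoe, h]
  haveI hcR : CharP R p := (R.subtype.charP_iff (Subtype.val_injective) p).2 inferInstance
  haveI hcR' : CharP R' p := (R'.subtype.charP_iff (Subtype.val_injective) p).2 inferInstance
  -- iterates on R
  have h1 : ∀ (t : ℕ) (r : R), (s' ^ t) (ι r) = ι ((s ^ t) r) := by
    intro t
    induction t with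
    | zero => intro r; rw [pow_zero_apply, pow_zero_apply]
    | succ t ih => intro r; rw [pow_succ_apply, pow_succ_apply, hs'ι, ih]
  have h2 : ∀ t : ℕ, (s' ^ t) Y' = Y' + ι (∑ i ∈ Finset.range t, (s ^ i) x) := by
    intro t
    induction t with
    | zero => rw [pow_zero_apply]; simp
    | succ t ih =>
      rw [pow_succ_apply, hs'Y, map_add, ih, h1, Finset.sum_range_succ, map_add]
      ring
  have h3 : ∀ k : ℕ, (s' ^ (m * k)) Y' = Y' + (k : R') := by
    intro k
    rw [h2, orbit_sum_mul s m x hsm htr k, map_natCast]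
  have h4 : ∀ (k : ℕ) (r : R), (s' ^ (m * k)) (ι r) = ι r := by
    intro k r
    rw [h1, pow_mul_apply_of_fixed s m r (hsm r)]
  have h5 : ∀ z : R', (s' ^ (m * p)) z = z := by
    intro z
    obtain ⟨q, _, rfl⟩ := hgen z
    have h6 : (s' ^ (m * p)) (q.eval₂ ι Y') =
        q.eval₂ (((s' ^ (m * p) : R' ≃+* R') : R' →+* R').comp ι) ((s' ^ (m * p)) Y') :=
      Polynomial.hom_eval₂ q ι ((s' ^ (m * p) : R' ≃+* R') : R' →+* R') Y'
    rw [h6, h3 p, CharP.cast_eq_zero, add_zero]
    congr 1
    ext r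
    exact congrArg Subtype.val (h4 p r)
  -- fixed elements
  have hfix' : ∀ z : R', s' z = z ↔ (z : Q) ∈ P := by
    intro z
    constructor
    · intro hz
      obtain ⟨q, hq, hqz⟩ := hgen z
      have hz1 : (s' ^ (m * 1)) z = z := pow_apply_of_fixed s' z hz _
      have h6 : (s' ^ (m * 1)) (q.eval₂ ι Y') =
          q.eval₂ (((s' ^ (m * 1) : R' ≃+* R') : R' →+* R').comp ι) ((s' ^ (m * 1)) Y') :=
        Polynomial.hom_eval₂ q ι ((s' ^ (m * 1) : R' ≃+* R') : R' →+* R') Y'
      have h7 : (((s' ^ (m * 1) : R' ≃+* R') : R' →+* R').comp ι) = ι := by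
        ext r
        exact congrArg Subtype.val (h4 1 r)
      have h8 : q.eval₂ ι (Y' + 1) = q.eval₂ ι Y' := by
        rw [h7, h3 1, Nat.cast_one] at h6
        rw [← h6, hqz, hz1]
      have h9 : (q.comp (X + 1)).eval₂ ι Y' = q.eval₂ ι (Y' + 1) := by
        rw [eval₂_comp]
        simp
      have hdeg : (q.comp (X + 1) - q).natDegree < p := by
        apply lt_of_le_of_lt (natDegree_sub_le _ _)
        apply max_lt _ hq
        rw [natDegree_comp]
        have : ((X : R[X]) + 1).natDegree = 1 := by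
          rw [← C_1]; exact natDegree_X_add_C 1
        rw [this, mul_one]
        exact hq
      have h10 : q.comp (X + 1) - q = 0 := by
        apply hind _ hdeg
        rw [eval₂_sub, h9, h8, sub_self]
      have h11 : q.comp (X + 1) = q := sub_eq_zero.1 h10
      have h12 : ∀ k : ℕ, q.eval (k : R) = q.eval 0 := by
        intro k
        induction k with
        | zero => simp
        | succ k ih =>
          rw [← ih]
          conv_rhs => rw [← h11]
          rw [eval_comp]
          simp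
      have h13 : q - C (q.eval 0) = 0 := by
        classical
        apply eq_zero_of_natDegree_lt_card_of_eval_eq_zero' _
          ((Finset.range p).image (fun k : ℕ => (k : R)))
        · intro r hr
          rw [Finset.mem_image] at hr
          obtain ⟨k, _, rfl⟩ := hr
          rw [eval_sub, eval_C, h12, sub_self]
        · rw [Finset.card_image_of_injOn, Finset.card_range]
          · rw [natDegree_sub_C]; exact hq
          · intro a ha c hc h
            have h2 : a ≡ c [MOD p] := (CharP.cast_eq_iff_mod_eq R p).1 h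
            exact Nat.ModEq.eq_of_lt_of_lt h2 (Finset.mem_range.1 ha) (Finset.mem_range.1 hc)
      have h14 : q = C (q.eval 0) := sub_eq_zero.1 h13
      have h15 : z = ι (q.eval 0) := by
        rw [← hqz]
        conv_lhs => rw [h14]
        rw [eval₂_C]
      have h16 : s (q.eval 0) = q.eval 0 := by
        apply hιinj
        rw [← hs'ι, ← h15, hz]
      have h17 := (hfix _).1 h16
      rw [h15, hιcoe]
      exact h17
    · intro hz
      have h6 : z = ι ⟨(z : Q), hPR hz⟩ := Subtype.ext rfl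
      rw [h6, hs'ι]
      congr 1
      exact (hfix _).2 hz
  -- the new element
  set x1 : R' := -(ι x * Y' ^ (p - 1)) with hx1
  set β : R' := ι x * (1 - Y' ^ (p - 1)) with hβ
  set τ : R' := ∑ t ∈ Finset.range (m * p), (s' ^ t) β with hτ
  have hsτ : s' τ = τ := map_orbit_sum s' (m * p) β (h5 β)
  have hsτt : ∀ t, (s' ^ t) τ = τ := pow_apply_of_fixed s' τ hsτ
  have htr1 : ∑ t ∈ Finset.range (m * p), (s' ^ t) x1 = 1 := by
    rw [sum_range_mul, Finset.sum_comm]
    have h6 : ∀ i ∈ Finset.range m, ∑ l ∈ Finset.range p, (s' ^ (m * l + i)) x1 =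
        (s' ^ i) (ι x) := by
      intro i _
      have h7 : ∀ l ∈ Finset.range p, (s' ^ (m * l + i)) x1 =
          (s' ^ i) (-(ι x) * (Y' + (l : R')) ^ (p - 1)) := by
        intro l _
        rw [add_comm (m * l) i, pow_add_apply]
        congr 1
        rw [hx1, map_neg, map_mul, map_pow, h3, h4]
        ring
      rw [Finset.sum_congr rfl h7, ← map_sum, ← Finset.mul_sum, sum_pow_translates]
      congr 1
      ring
    rw [Finset.sum_congr rfl h6]
    have h8 : ∀ i ∈ Finset.range m, (s' ^ i) (ι x) = ι ((s ^ i) x) := fun i _ => h1 i x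
    rw [Finset.sum_congr rfl h8, ← map_sum, htr, map_one]
  have hκ : (p : κ) = 0 := by
    have h6 : (p : V) = 0 := by
      apply hj
      rw [map_natCast, map_zero, CharP.cast_eq_zero]
    have := congrArg ε h6
    rwa [map_natCast, map_zero] at this
  -- representatives
  choose v hv1 hv2 using hv
  have hy : ∀ t, j (Y0 + ∑ i ∈ Finset.range t, v i) = (((s' ^ t) Y' : R') : Q) := by
    intro t
    rw [h2, map_add, map_sum]
    push_cast
    rw [hY', hιcoe]
    push_cast
    congr 1
    exact Finset.sum_congr rfl (fun i _ => hv1 i)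
  have hvR : ∀ t, j (v t) = (((s' ^ t) (ι x) : R') : Q) := by
    intro t
    rw [h1, hιcoe]; exact hv1 t
  have hβt : ∀ t, j (v t * (1 - (Y0 + ∑ i ∈ Finset.range t, v i) ^ (p - 1))) =
      (((s' ^ t) β : R') : Q) := by
    intro t
    rw [hβ, map_mul, map_sub, map_pow, map_one, hy, hvR, map_mul, map_sub, map_one, map_pow]
    push_cast
    rfl
  have hεβ : ∀ t, ε (v t * (1 - (Y0 + ∑ i ∈ Finset.range t, v i) ^ (p - 1))) =
      if m * p ∣ t then 1 else 0 := by
    intro t
    rw [map_mul, map_sub, map_pow, map_one, map_add, hY0, zero_add, map_sum, hv2]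
    by_cases hmt : m ∣ t
    · obtain ⟨k, rfl⟩ := hmt
      rw [if_pos (Dvd.intro k rfl), one_mul]
      have h6 : ∑ i ∈ Finset.range (m * k), ε (v i) = (k : κ) := by
        rw [← sum_indicator m hm k]
        exact Finset.sum_congr rfl (fun i _ => hv2 i)
      rw [h6, one_sub_pow p hκ k]
      have h7 : m * p ∣ m * k ↔ p ∣ k := Nat.mul_dvd_mul_iff_left hm
      by_cases hpk : p ∣ k
      · rw [if_pos hpk, if_pos (h7.2 hpk)]
      · rw [if_neg hpk, if_neg (fun h => hpk (h7.1 h))]
    · rw [if_neg hmt, zero_mul, if_neg]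
      intro h
      exact hmt (dvd_trans (Dvd.intro p rfl) h)
  have hx1t : ∀ t, j (-(v t * (Y0 + ∑ i ∈ Finset.range t, v i) ^ (p - 1))) =
      (((s' ^ t) x1 : R') : Q) := by
    intro t
    rw [hx1, map_neg, map_mul, map_pow, hy, hvR, map_neg, map_mul, map_pow]
    push_cast
    rfl
  set T : V := ∑ t ∈ Finset.range (m * p),
    v t * (1 - (Y0 + ∑ i ∈ Finset.range t, v i) ^ (p - 1)) with hT
  have hTj : j T = (τ : Q) := by
    rw [hT, hτ, map_sum]
    push_cast
    exact Finset.sum_congr rfl (fun t _ => hβt t)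
  have hTε : ε T = 1 := by
    rw [hT, map_sum, Finset.sum_congr rfl (fun t _ => hεβ t)]
    have h6 := sum_indicator (κ := κ) (m * p) (Nat.mul_pos hm hp.pos) 1
    rw [mul_one] at h6
    rw [h6, Nat.cast_one]
  have hxn : ∀ t, (s' ^ t) (β + (1 - τ) * x1) = (s' ^ t) β + (1 - τ) * (s' ^ t) x1 := by
    intro t
    rw [map_add (s' ^ t) β, map_mul (s' ^ t) (1 - τ), map_sub (s' ^ t) 1 τ, map_one, hsτt]
  refine ⟨R', s', β + (1 - τ) * x1, hPR.trans hR, h5, hfix', ?_, ?_⟩
  · rw [Finset.sum_congr rfl (fun t _ => hxn t), Finset.sum_add_distrib, ← Finset.mul_sum, htr1,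
      ← hτ]
    ring
  · intro t
    refine ⟨v t * (1 - (Y0 + ∑ i ∈ Finset.range t, v i) ^ (p - 1)) +
      (1 - T) * (-(v t * (Y0 + ∑ i ∈ Finset.range t, v i) ^ (p - 1))), ?_, ?_⟩
    · rw [map_add, map_mul j (1 - T), map_sub j 1 T, map_one, hβt, hx1t, hTj, hxn]
      push_cast
      rfl
    · rw [map_add, hεβ, map_mul ε (1 - T), map_sub ε 1 T, map_one, hTε, sub_self, zero_mul,
        add_zero]

/-- no root of the next Artin-Schreier equation in the fraction field -/
theorem no_root (p : ℕ) [Fact p.Prime] [CharP Q p] (m : ℕ) (hpm : p ∣ m)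
    (R : Subring Q) (s : R ≃+* R) (x b : R) (hsm : ∀ r : R, (s ^ m) r = r)
    (htr : ∑ t ∈ Finset.range m, (s ^ t) x = 1) (hb : s b - b = x ^ p - x) :
    ∀ a ∈ R, ∀ c ∈ R, c ≠ 0 → (a / c) ^ p - a / c ≠ b := by
  have hp : p.Prime := Fact.out
  haveI : ExpChar Q p := ExpChar.prime hp
  intro a0 ha c0 hc hc0 h
  set a : R := ⟨a0, ha⟩ with ha'
  set c : R := ⟨c0, hc⟩ with hc'
  have hcne : ∀ t : ℕ, (((s ^ t) c : R) : Q) ≠ 0 := by
    intro t h0
    have h1 : (s ^ t) c = 0 := Subtype.ext h0
    have h2 : c = 0 := (map_eq_zero_iff _ (s ^ t).injective).1 h1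
    exact hc0 (congrArg Subtype.val h2)
  -- the identity in R
  have hpow : c0 ^ p = c0 ^ (p - 1) * c0 := by
    rw [← pow_succ, Nat.sub_add_cancel hp.one_lt.le]
  have hR1 : a ^ p - a * c ^ (p - 1) = b * c ^ p := by
    apply Subtype.ext
    push_cast
    change a0 ^ p - a0 * c0 ^ (p - 1) = b * c0 ^ p
    rw [← h, div_pow]
    rw [sub_mul, div_mul_cancel₀ _ (pow_ne_zero p hc0), hpow]
    field_simp
  have hR2 : (s a) ^ p - s a * (s c) ^ (p - 1) = s b * (s c) ^ p := by
    have := congrArg s hR1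
    simpa only [map_sub, map_mul, map_pow] using this
  have hsc : ((s c : R) : Q) ≠ 0 := by
    have := hcne 1
    rwa [pow_one] at this
  have hg1 : (((s a : R) : Q) / ((s c : R) : Q)) ^ p - ((s a : R) : Q) / ((s c : R) : Q) =
      ((s b : R) : Q) := by
    have h3 := congrArg Subtype.val hR2
    push_cast at h3
    have hpow' : ((s c : R) : Q) ^ p = ((s c : R) : Q) ^ (p - 1) * ((s c : R) : Q) := by
      rw [← pow_succ, Nat.sub_add_cancel hp.one_lt.le]
    rw [div_pow, sub_eq_iff_eq_add, div_eq_iff (pow_ne_zero p hsc), add_mul, ← h3]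
    rw [hpow']
    field_simp
    ring
  have hbQ : ((s b : R) : Q) - b = (x : Q) ^ p - x := by
    have h3 := congrArg Subtype.val hb
    push_cast at h3
    exact h3
  obtain ⟨k, _, hk⟩ := eq_natCast_of_pow_eq p
    (((s a : R) : Q) / ((s c : R) : Q) - a0 / c0 - x) (by
      rw [sub_pow_expChar, sub_pow_expChar]
      linear_combination hg1 - h + hbQ)
  -- the identity in R
  have hR3 : s a * c = a * s c + (x + (k : R)) * (c * s c) := by
    apply Subtype.ext
    push_cast
    change ((s a : R) : Q) * c0 = a0 * ((s c : R) : Q) + (x + (k : Q)) * (c0 * ((s c : R) : Q))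
    rw [← hk]
    field_simp
    ring
  have hg : ∀ t : ℕ, (((s ^ (t + 1)) a : R) : Q) / (((s ^ (t + 1)) c : R) : Q) =
      (((s ^ t) a : R) : Q) / (((s ^ t) c : R) : Q) + (((s ^ t) x : R) : Q) + k := by
    intro t
    have h3 := congrArg (s ^ t) hR3
    rw [map_mul, map_add, map_mul, map_mul, map_add, map_mul, map_natCast, ← pow_succ_apply,
      ← pow_succ_apply] at h3
    have h4 := congrArg Subtype.val h3
    push_cast at h4
    have h5 := hcne t
    have h6 := hcne (t + 1)
    rw [div_add' _ _ _ h5, div_add' _ _ _ h5, div_eq_div_iff h6 h5, h4]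
    ring
  have hG : ∀ t : ℕ, (((s ^ t) a : R) : Q) / (((s ^ t) c : R) : Q) =
      a0 / c0 + ((∑ i ∈ Finset.range t, (s ^ i) x : R) : Q) + t * k := by
    intro t
    induction t with
    | zero =>
      rw [pow_zero_apply, pow_zero_apply]
      simp [ha', hc']
    | succ t ih =>
      rw [hg, ih, Finset.sum_range_succ]
      push_cast
      ring
  have h7 := hG m
  rw [hsm, hsm, htr] at h7
  have h8 : (m : Q) = 0 := (CharP.cast_eq_zero_iff Q p m).2 hpm
  rw [h8] at h7
  have h9 : a0 / c0 = a0 / c0 + 1 := by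
    simpa [ha', hc'] using h7
  have h10 : (1 : Q) = 0 := by
    linear_combination -h9
  exact one_ne_zero h10

theorem inv_pow (p : ℕ) [Fact p.Prime] [CharP Q p] (P : Subring Q) (j : V →+* Q)
    (hj : Function.Injective j)
    (ε : V →+* κ) (hAS : ∀ b : V, ε b = 0 → ∃ Y : V, ε Y = 0 ∧ Y ^ p - Y = b)
    (u : V) (huP : j u ∈ P) (hu0 : ε u = 0)
    (hirr : ∀ a ∈ P, ∀ b ∈ P, b ≠ 0 → (a / b) ^ p - a / b ≠ j u) (n : ℕ) :
    Inv P j ε (p ^ n) := by
  have hp : p.Prime := Fact.out
  induction n with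
  | zero =>
    refine ⟨P, RingEquiv.refl P, 1, le_refl P, ?_, ?_, ?_, ?_⟩
    · intro r
      apply pow_apply_of_fixed
      rfl
    · intro r
      exact ⟨fun _ => r.2, fun _ => rfl⟩
    · simp
    · intro t
      refine ⟨1, ?_, ?_⟩
      · rw [map_one, map_one]; rfl
      · rw [map_one]; simp
  | succ n ih =>
    obtain ⟨R, s, x, hPR, hsm, hfix, htr, hv⟩ := ih
    haveI hcR : CharP R p := (R.subtype.charP_iff (Subtype.val_injective) p).2 inferInstance
    rw [pow_succ]
    have hmpos : 0 < p ^ n := pow_pos hp.pos n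
    rcases Nat.eq_zero_or_pos n with hn | hn
    · subst hn
      rw [pow_zero] at hsm htr hv ⊢
      have hs1 : ∀ r : R, s r = r := by
        intro r
        have := hsm r
        rwa [pow_one] at this
      have hRP : R ≤ P := by
        intro r hr
        exact (hfix ⟨r, hr⟩).1 (hs1 _)
      have hx : x = 1 := by
        rw [← htr, Finset.sum_range_one, pow_zero_apply]
      have huR : j u ∈ R := hPR huP
      refine step p P j hj ε hAS 1 one_pos R s x hPR (by rw [pow_one] at hsm ⊢; exact hsm) hfix htr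
        hv ⟨j u, huR⟩ u rfl hu0 ?_ ?_
      · rw [hs1, hx]; simp
      · intro a ha c hc hc0
        exact hirr a (hRP ha) c (hRP hc) hc0
    · -- the element `b`
      set m := p ^ n with hm
      set w : R := x ^ p - x with hw
      have htw : ∑ t ∈ Finset.range m, (s ^ t) w = 0 := by
        have h1 : ∀ t ∈ Finset.range m, (s ^ t) w = ((s ^ t) x) ^ p - (s ^ t) x := by
          intro t _
          rw [hw, map_sub, map_pow]
        rw [Finset.sum_congr rfl h1, Finset.sum_sub_distrib, htr, ← sum_pow_char, htr]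
        simp
      have hb := hilbert90 s m x w hsm htr htw
      set b : R := -∑ k ∈ Finset.range m, (∑ i ∈ Finset.range k, (s ^ i) w) * (s ^ k) x with hbdef
      choose v hv1 hv2 using hv
      have hwv : ∀ i, j ((v i) ^ p - v i) = (((s ^ i) w : R) : Q) := by
        intro i
        rw [hw, map_sub, map_pow, hv1, map_sub, map_pow]
        push_cast
        rfl
      have hwε : ∀ i, ε ((v i) ^ p - v i) = 0 := by
        intro i
        rw [map_sub, map_pow, hv2]
        split_ifs
        · simp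
        · rw [zero_pow hp.ne_zero, sub_zero]
      refine step p P j hj ε hAS m hmpos R s x hPR hsm hfix htr (fun t => ⟨v t, hv1 t, hv2 t⟩) b
        (-∑ k ∈ Finset.range m, (∑ i ∈ Finset.range k, ((v i) ^ p - v i)) * v k) ?_ ?_ hb ?_
      · rw [hbdef, map_neg, map_sum]
        push_cast
        congr 1
        apply Finset.sum_congr rfl
        intro k _
        rw [map_mul, map_sum, hv1]
        congr 1
        exact Finset.sum_congr rfl (fun i _ => hwv i)
      · rw [map_neg, map_sum, neg_eq_zero]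
        apply Finset.sum_eq_zero
        intro k _
        rw [map_mul, map_sum, Finset.sum_eq_zero (fun i _ => hwε i), zero_mul]
      · exact no_root p m (dvd_pow_self p (by omega)) R s x b hsm htr hb

theorem hasLC_artinSchreier {Q V κ : Type*} [Field Q] [CommRing V] [CommRing κ] (p : ℕ)
    [Fact p.Prime] [CharP Q p] (P : Subring Q) (j : V →+* Q) (hj : Function.Injective j)
    (ε : V →+* κ) (hAS : ∀ b : V, ε b = 0 → ∃ Y : V, ε Y = 0 ∧ Y ^ p - Y = b)
    (u : V) (huP : j u ∈ P) (hu0 : ε u = 0)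
    (hirr : ∀ a ∈ P, ∀ b ∈ P, b ≠ 0 → (a / b) ^ p - a / b ≠ j u) (n : ℕ) :
    HasLC P j ε (p ^ n) := by
  obtain ⟨R, s, x, h1, h2, h3, _, h5⟩ := inv_pow p P j hj ε hAS u huP hu0 hirr n
  exact ⟨R, s, x, h1, h2, h3, h5⟩

end Pool.Agent.Helper28.MP
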