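import Pool.Agent.Helper13.MP.Def

/-!
Artin-Schreier lemmas: roots of `T ^ p - T`, linear independence of the powers of an
Artin-Schreier element.
-/

set_option autoImplicit false

namespace Pool.Agent.Helper28.MP

open Polynomial

variable {Q : Type*} [Field Q]

/-- the solutions of `z ^ p = z` in a field of characteristic `p` are natural numbers `< p`. -/
theorem eq_natCast_of_pow_eq (p : ℕ) [Fact p.Prime] [CharP Q p] (z : Q) (hz : z ^ p = z) :
    ∃ k : ℕ, k < p ∧ z = k := by
  have h : z ∈ (⊥ : Subfield Q) := (Subfield.mem_bot_iff_pow_eq_self Q p).2 hz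
  rw [← ZMod.fieldRange_castHom_eq_bot p, RingHom.mem_fieldRange] at h
  obtain ⟨a, ha⟩ := h
  refine ⟨a.val, ZMod.val_lt a, ?_⟩
  rw [← ha, ZMod.castHom_apply, ZMod.natCast_val]

/-- two solutions of `T ^ p - T = b` differ by a natural number. -/
theorem eq_add_natCast (p : ℕ) [Fact p.Prime] [CharP Q p] (y z b : Q) (hy : y ^ p - y = b)
    (hz : z ^ p - z = b) : ∃ k : ℕ, k < p ∧ z = y + k := by
  haveI : ExpChar Q p := ExpChar.prime Fact.out
  have h : (z - y) ^ p = z - y := by
    rw [sub_pow_expChar]
    linear_combination hz - hy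
  obtain ⟨k, hk, h2⟩ := eq_natCast_of_pow_eq p _ h
  exact ⟨k, hk, by rw [← h2]; ring⟩

/-- an Artin-Schreier element whose equation has no root in the fraction field of `R` satisfies no
nonzero polynomial over `R` of degree less than `p`. -/
theorem eq_zero_of_eval (p : ℕ) [Fact p.Prime] [CharP Q p] (R : Subring Q) (b : Q) (hb : b ∈ R)
    (Y : Q) (hY : Y ^ p - Y = b)
    (hnr : ∀ a ∈ R, ∀ c ∈ R, c ≠ 0 → (a / c) ^ p - a / c ≠ b) (q : R[X])
    (hq : q.natDegree < p) (hq0 : q.eval₂ R.subtype Y = 0) : q = 0 := by
  have hp : p.Prime := Fact.out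
  by_contra hne
  -- the fraction field
  let K : Subfield Q := Subfield.closure (R : Set Q)
  have hRK : ∀ a ∈ R, a ∈ K := fun a ha => Subfield.subset_closure ha
  have hKR : ∀ z ∈ K, ∃ a ∈ R, ∃ c ∈ R, a / c = z := by
    intro z hz
    have := (Subfield.mem_closure_iff).1 hz
    simpa [Subring.closure_eq] using this
  have hYK : Y ∉ K := by
    intro hYK
    obtain ⟨a, ha, c, hc, h⟩ := hKR Y hYK
    by_cases hc0 : c = 0
    · subst hc0
      simp only [div_zero] at h
      apply hnr 0 R.zero_mem 1 R.one_mem one_ne_zero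
      rw [← hY, ← h]
      simp
    · exact hnr a ha c hc hc0 (by rw [h, hY])
  -- the polynomial over K
  let i : R →+* K := Subring.inclusion (S := R) (T := K.toSubring) hRK
  have hcomp : (algebraMap K Q).comp i = R.subtype := by
    ext r; rfl
  have hinj : Function.Injective i := by
    intro r r' h
    have := congrArg (algebraMap K Q) h
    have h2 : R.subtype r = R.subtype r' := by
      rw [← hcomp]; exact this
    exact Subtype.ext h2
  have hqK : q.map i ≠ 0 := by
    rw [Ne, Polynomial.map_eq_zero_iff hinj]; exact hne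
  have hqK0 : Polynomial.aeval Y (q.map i) = 0 := by
    rw [Polynomial.aeval_def, Polynomial.eval₂_map, hcomp]; exact hq0
  have hint : IsIntegral K Y := by
    refine ⟨X ^ p - X - C (⟨b, hRK b hb⟩ : K), ?_, ?_⟩
    · have h1 : (X ^ p - X - C (⟨b, hRK b hb⟩ : K)) = X ^ p - (X + C (⟨b, hRK b hb⟩ : K)) := by ring
      rw [h1]
      apply monic_X_pow_sub
      rw [degree_X_add_C]
      exact_mod_cast hp.one_lt
    · simp only [eval₂_sub, eval₂_pow, eval₂_X, eval₂_C]
      rw [hY]
      exact sub_self b
  set μ := minpoly K Y with hμ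
  have hμm : μ.Monic := minpoly.monic hint
  have hμd : μ.natDegree < p := by
    have h1 : μ.degree ≤ (q.map i).degree := minpoly.degree_le_of_ne_zero K Y hqK hqK0
    have h2 : μ.natDegree ≤ (q.map i).natDegree := natDegree_le_natDegree h1
    exact lt_of_le_of_lt (h2.trans natDegree_map_le) hq
  have hμpos : 0 < μ.natDegree := minpoly.natDegree_pos hint
  -- divides the product
  let F : K[X] := X ^ p - X - C (⟨b, hRK b hb⟩ : K)
  have hF0 : Polynomial.aeval Y F = 0 := by
    simp only [F, map_sub, map_pow, aeval_X, aeval_C]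
    rw [hY]
    exact sub_self b
  have hdiv : μ ∣ F := minpoly.dvd K Y hF0
  have hFmap : F.map (algebraMap K Q) = X ^ p - X - C b := by
    simp only [F, Polynomial.map_sub, Polynomial.map_pow, Polynomial.map_X, Polynomial.map_C]
    rfl
  have hFne : (X ^ p - X - C b : Q[X]) ≠ 0 := by
    rw [← hFmap]
    apply Polynomial.map_ne_zero
    intro h0
    have h1 : F = X ^ p - (X + C (⟨b, hRK b hb⟩ : K)) := by simp only [F]; ring
    have h2 : F.Monic := by
      rw [h1]
      apply monic_X_pow_sub
      rw [degree_X_add_C]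
      exact_mod_cast hp.one_lt
    exact h2.ne_zero h0
  -- product formula
  have hprod : (X ^ p - X - C b : Q[X]) = ∏ k ∈ Finset.range p, (X - C (Y + (k : Q))) := by
    have hmon : (X ^ p - X - C b : Q[X]).Monic := by
      have h1 : (X ^ p - X - C b : Q[X]) = X ^ p - (X + C b) := by ring
      rw [h1]
      apply monic_X_pow_sub
      rw [degree_X_add_C]
      exact_mod_cast hp.one_lt
    have hdeg : (X ^ p - X - C b : Q[X]).natDegree = p := by
      have h1 : (X ^ p - X - C b : Q[X]) = X ^ p - (X + C b) := by ring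
      rw [h1, natDegree_sub_eq_left_of_natDegree_lt]
      · exact natDegree_X_pow p
      · rw [natDegree_X_pow, natDegree_X_add_C]
        exact hp.one_lt
    have hroot : ∀ k : ℕ, (X ^ p - X - C b : Q[X]).IsRoot (Y + (k : Q)) := by
      intro k
      haveI : ExpChar Q p := ExpChar.prime hp
      have hk : (k : Q) ^ p = k := by
        have := (Subfield.mem_bot_iff_pow_eq_self Q p).1 (natCast_mem (⊥ : Subfield Q) k)
        exact this
      simp only [IsRoot.def, eval_sub, eval_pow, eval_X, eval_C]
      rw [add_pow_expChar, hk]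
      linear_combination hY
    have hinj2 : Set.InjOn (fun k : ℕ => Y + (k : Q)) (Finset.range p) := by
      intro a ha c hc h
      have h1 : (a : Q) = c := add_left_cancel h
      have h2 : a ≡ c [MOD p] := (CharP.cast_eq_iff_mod_eq Q p).1 h1 
      have h3 := Nat.ModEq.eq_of_lt_of_lt h2 (Finset.mem_range.1 ha) (Finset.mem_range.1 hc)
      exact h3
    have hdvd : (∏ k ∈ Finset.range p, (X - C (Y + (k : Q)))) ∣ (X ^ p - X - C b : Q[X]) := by
      classical
      have h1 : (∏ k ∈ Finset.range p, (X - C (Y + (k : Q)))) =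
          ∏ z ∈ (Finset.range p).image (fun k : ℕ => Y + (k : Q)), (X - C z) := by
        rw [Finset.prod_image hinj2]
      rw [h1]
      apply Finset.prod_dvd_of_coprime
      · intro z _ z' _ hzz
        exact Polynomial.pairwise_coprime_X_sub_C Function.injective_id hzz
      · intro z hz
        rw [Finset.mem_image] at hz
        obtain ⟨k, _, rfl⟩ := hz
        exact dvd_iff_isRoot.2 (hroot k)
    apply Polynomial.eq_of_monic_of_dvd_of_natDegree_le _ hmon hdvd
    · rw [hdeg, natDegree_prod_of_monic]
      · simp only [natDegree_X_sub_C, Finset.sum_const, Finset.card_range, smul_eq_mul, mul_one]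
        exact le_rfl
      · intro k _; exact monic_X_sub_C _
    · exact monic_prod_of_monic _ _ (fun k _ => monic_X_sub_C _)
  have hsplF : (X ^ p - X - C b : Q[X]).Splits := by
    rw [hprod]
    apply Polynomial.Splits.prod
    intro k _
    exact Polynomial.Splits.X_sub_C _
  have hdivQ : μ.map (algebraMap K Q) ∣ (X ^ p - X - C b : Q[X]) := by
    rw [← hFmap]
    exact Polynomial.map_dvd _ hdiv
  have hspl : (μ.map (algebraMap K Q)).Splits := hsplF.of_dvd hFne hdivQ
  have hmQ : (μ.map (algebraMap K Q)).Monic := hμm.map _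
  have hsum := hspl.nextCoeff_eq_neg_sum_roots_of_monic hmQ
  have hcard : (μ.map (algebraMap K Q)).roots.card = μ.natDegree := by
    have := hspl.natDegree_eq_card_roots
    rw [← this, natDegree_map]
  -- the sum of the roots
  have hrootsform : ∀ (s : Multiset Q), (∀ z ∈ s, ∃ k : ℕ, k < p ∧ z = Y + k) →
      ∃ k : ℕ, s.sum = s.card * Y + k := by
    intro s
    induction s using Multiset.induction with
    | empty => intro _; exact ⟨0, by simp⟩
    | cons a s ih =>
      intro h
      obtain ⟨k, _, hk⟩ := h a (Multiset.mem_cons_self a s)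
      obtain ⟨l, hl⟩ := ih (fun z hz => h z (Multiset.mem_cons_of_mem hz))
      refine ⟨k + l, ?_⟩
      rw [Multiset.sum_cons, Multiset.card_cons, hl, hk]
      push_cast
      ring
  obtain ⟨k, hk⟩ := hrootsform (μ.map (algebraMap K Q)).roots (by
    intro z hz
    have hz1 : (μ.map (algebraMap K Q)).IsRoot z := isRoot_of_mem_roots hz
    have hz2 : (X ^ p - X - C b : Q[X]).IsRoot z := hz1.dvd hdivQ
    apply eq_add_natCast p Y z b hY
    simp only [IsRoot.def, eval_sub, eval_pow, eval_X, eval_C] at hz2
    linear_combination hz2)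
  rw [hcard] at hk
  have hnc : (μ.map (algebraMap K Q)).nextCoeff = algebraMap K Q μ.nextCoeff := by
    rw [Polynomial.nextCoeff_map (algebraMap K Q).injective]
  have hdne : ((μ.natDegree : ℕ) : Q) ≠ 0 := by
    intro h
    have := (CharP.cast_eq_zero_iff Q p _).1 h
    exact absurd (Nat.le_of_dvd hμpos this) (by omega)
  apply hYK
  have hYeq : Y = (-(algebraMap K Q μ.nextCoeff) - k) / ((μ.natDegree : ℕ) : Q) := by
    rw [eq_div_iff hdne, ← hnc, hsum, hk]
    ring
  rw [hYeq]
  apply K.div_mem
  · apply K.sub_mem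
    · apply K.neg_mem
      exact μ.nextCoeff.2
    · exact natCast_mem K k
  · exact natCast_mem K _

end Pool.Agent.Helper28.MP
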