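import Pool.Agent.Helper28.MP.AS1

/-!
Artin-Schreier lemmas: extension of an automorphism of a subring of a field to the subring
generated by an Artin-Schreier element.
-/

set_option autoImplicit false

namespace Pool.Agent.Helper28.MP

open Polynomial

variable {Q : Type*} [Field Q]

/-- the automorphism of `R[X]` which is `s` on `R` and maps `X` to `X + x`. -/
noncomputable def Phi {R : Type*} [CommRing R] (s : R ≃+* R) (x : R) : R[X] ≃+* R[X] :=
  (Polynomial.mapEquiv s).trans (Polynomial.algEquivAevalXAddC x).toRingEquiv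

theorem Phi_C {R : Type*} [CommRing R] (s : R ≃+* R) (x r : R) : Phi s x (C r) = C (s r) := by
  simp [Phi]

theorem Phi_X {R : Type*} [CommRing R] (s : R ≃+* R) (x : R) : Phi s x X = X + C x := by
  simp [Phi]

theorem extend (p : ℕ) [Fact p.Prime] [CharP Q p] (R : Subring Q) (s : R ≃+* R) (x b : R)
    (hb : s b - b = x ^ p - x) (Y : Q) (hY : Y ^ p - Y = b)
    (hnr : ∀ a ∈ R, ∀ c ∈ R, c ≠ 0 → (a / c) ^ p - a / c ≠ b) :
    ∃ (R' : Subring Q) (hR : R ≤ R') (s' : R' ≃+* R') (Y' : R'), (Y' : Q) = Y ∧
      (∀ r : R, s' (Subring.inclusion hR r) = Subring.inclusion hR (s r)) ∧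
      s' Y' = Y' + Subring.inclusion hR x ∧
      (∀ z : R', ∃ q : R[X], q.natDegree < p ∧ q.eval₂ (Subring.inclusion hR) Y' = z) ∧
      (∀ q : R[X], q.natDegree < p → q.eval₂ (Subring.inclusion hR) Y' = 0 → q = 0) := by
  have hp : p.Prime := Fact.out
  haveI : CharP R p := (R.subtype.charP_iff (Subtype.val_injective) p).2 inferInstance
  haveI : ExpChar R p := ExpChar.prime hp
  haveI : ExpChar R[X] p := ExpChar.prime hp
  set ev : R[X] →+* Q := eval₂RingHom R.subtype Y with hev
  have hevC : ∀ r : R, ev (C r) = r := by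
    intro r; simp [hev]
  have hevX : ev X = Y := by simp [hev]
  set f : R[X] := X ^ p - X - C b with hf
  have hf1 : f = X ^ p - (X + C b) := by rw [hf]; ring
  have hfm : f.Monic := by
    rw [hf1]
    apply monic_X_pow_sub
    rw [degree_X_add_C]
    exact_mod_cast hp.one_lt
  have hfd : f.natDegree = p := by
    rw [hf1, natDegree_sub_eq_left_of_natDegree_lt]
    · exact natDegree_X_pow p
    · rw [natDegree_X_pow, natDegree_X_add_C]
      exact hp.one_lt
  have hevf : ev f = 0 := by
    rw [hf, map_sub, map_sub, map_pow, hevX, hevC]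
    exact sub_eq_zero.2 hY
  have hlow : ∀ q : R[X], q.natDegree < p → ev q = 0 → q = 0 := by
    intro q hq h0
    exact eq_zero_of_eval p R b b.2 Y hY hnr q hq h0
  have hmod : ∀ q : R[X], ev (q %ₘ f) = ev q := by
    intro q
    have h1 := modByMonic_add_div q f
    have h2 := congrArg ev h1
    rw [map_add, map_mul, hevf, zero_mul, add_zero] at h2
    exact h2
  have hmodd : ∀ q : R[X], (q %ₘ f).natDegree < p := by
    intro q
    have h1 := natDegree_modByMonic_lt q hfm (by
      intro h
      have := hfd
      rw [h, natDegree_one] at this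
      exact hp.ne_zero this.symm)
    rw [hfd] at h1
    exact h1
  have hker : RingHom.ker ev = Ideal.span {f} := by
    apply le_antisymm
    · intro q hq
      rw [RingHom.mem_ker] at hq
      have h1 : q %ₘ f = 0 := hlow _ (hmodd q) (by rw [hmod, hq])
      rw [Ideal.mem_span_singleton]
      exact (modByMonic_eq_zero_iff_dvd hfm).1 h1
    · rw [Ideal.span_le]
      intro q hq
      rw [Set.mem_singleton_iff] at hq
      subst hq
      exact hevf
  have hPf : Phi s x f = f := by
    rw [hf, map_sub, map_sub, map_pow, Phi_X, Phi_C, add_pow_expChar]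
    have h1 : s b = b + (x ^ p - x) := by rw [← hb]; ring
    rw [h1, C_add, C_sub, C_pow]
    ring
  have hJ : RingHom.ker ev = (RingHom.ker ev).map ((Phi s x : R[X] ≃+* R[X]) : R[X] →+* R[X]) := by
    rw [hker, Ideal.map_span, Set.image_singleton]
    congr 1
    rw [RingEquiv.coe_toRingHom, hPf]
  set e := RingHom.quotientKerEquivRange ev with he
  have hemk : ∀ q : R[X], e (Ideal.Quotient.mk _ q) = ev.rangeRestrict q := by
    intro q
    rfl
  let s' : ev.range ≃+* ev.range :=
    e.symm.trans ((Ideal.quotientEquiv (RingHom.ker ev) (RingHom.ker ev) (Phi s x) hJ).trans e)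
  have hs' : ∀ q : R[X], s' (ev.rangeRestrict q) = ev.rangeRestrict (Phi s x q) := by
    intro q
    rw [← hemk, ← hemk]
    simp only [s', RingEquiv.trans_apply, RingEquiv.symm_apply_apply]
    congr 1
  have hR : R ≤ ev.range := by
    intro r hr
    exact ⟨C ⟨r, hr⟩, hevC _⟩
  have hincl : ∀ r : R, Subring.inclusion hR r = ev.rangeRestrict (C r) := by
    intro r
    apply Subtype.ext
    exact (hevC r).symm
  have hev2 : ∀ q : R[X], q.eval₂ (Subring.inclusion hR) (ev.rangeRestrict X) =
      ev.rangeRestrict q := by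
    intro q
    have h1 : (eval₂RingHom (Subring.inclusion hR) (ev.rangeRestrict X)) = ev.rangeRestrict := by
      apply Polynomial.ringHom_ext
      · intro a
        rw [← hincl]
        simp
      · simp
    exact congrArg (fun g : R[X] →+* ev.range => g q) h1
  refine ⟨ev.range, hR, s', ev.rangeRestrict X, hevX, ?_, ?_, ?_, ?_⟩
  · intro r
    rw [hincl, hincl, hs', Phi_C]
  · rw [hs', Phi_X, map_add, hincl]
  · rintro ⟨z, q, hq⟩
    refine ⟨q %ₘ f, hmodd q, ?_⟩
    rw [hev2]
    apply Subtype.ext
    rw [RingHom.coe_rangeRestrict, hmod]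
    exact hq
  · intro q hq h0
    rw [hev2] at h0
    apply hlow q hq
    have := congrArg Subtype.val h0
    exact this

end Pool.Agent.Helper28.MP
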