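import Pool.Agent.Helper28.MP.AS2

/-!
Local cyclic data of order `p ^ n` by Artin-Schreier towers inside a field.
-/

set_option autoImplicit false

namespace Pool.Agent.Helper28.MP

open Polynomial Pool.Agent.Helper13.MP

/-! ### sums over iterates of a ring automorphism -/

section sums

variable {A : Type*} [CommRing A]

theorem pow_succ_apply (s : A ≃+* A) (t : ℕ) (z : A) : (s ^ (t + 1)) z = (s ^ t) (s z) := by
  rw [pow_succ]; rfl

theorem pow_succ_apply' (s : A ≃+* A) (t : ℕ) (z : A) : (s ^ (t + 1)) z = s ((s ^ t) z) := by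
  rw [pow_succ']; rfl

theorem pow_add_apply (s : A ≃+* A) (t u : ℕ) (z : A) : (s ^ (t + u)) z = (s ^ t) ((s ^ u) z) := by
  rw [pow_add]; rfl

theorem pow_zero_apply (s : A ≃+* A) (z : A) : (s ^ 0) z = z := by
  rw [pow_zero]; rfl

theorem pow_mul_apply_of_fixed (s : A ≃+* A) (m : ℕ) (z : A) (hz : (s ^ m) z = z) (k : ℕ) :
    (s ^ (m * k)) z = z := by
  induction k with
  | zero => rw [mul_zero, pow_zero_apply]
  | succ k ih => rw [mul_add, mul_one, pow_add_apply, hz, ih]

theorem pow_apply_of_fixed (s : A ≃+* A) (z : A) (hz : s z = z) (k : ℕ) : (s ^ k) z = z := by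
  induction k with
  | zero => rw [pow_zero_apply]
  | succ k ih => rw [pow_succ_apply, hz, ih]

theorem map_orbit_sum (s : A ≃+* A) (M : ℕ) (z : A) (hz : (s ^ M) z = z) :
    s (∑ t ∈ Finset.range M, (s ^ t) z) = ∑ t ∈ Finset.range M, (s ^ t) z := by
  rw [map_sum]
  have h1 : ∀ t ∈ Finset.range M, s ((s ^ t) z) = (s ^ (t + 1)) z := by
    intro t _; rw [pow_succ_apply']
  rw [Finset.sum_congr rfl h1]
  have h2 := Finset.sum_range_succ (fun t => (s ^ t) z) M
  have h3 := Finset.sum_range_succ' (fun t => (s ^ t) z) M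
  rw [h2, hz] at h3
  rw [pow_zero_apply] at h3
  exact (add_right_cancel h3).symm

theorem sum_range_mul {B : Type*} [AddCommMonoid B] (g : ℕ → B) (m k : ℕ) :
    ∑ t ∈ Finset.range (m * k), g t =
      ∑ l ∈ Finset.range k, ∑ i ∈ Finset.range m, g (m * l + i) := by
  induction k with
  | zero => simp
  | succ k ih =>
    rw [mul_add, mul_one, Finset.sum_range_add, ih, Finset.sum_range_succ]

/-- the sum of the values over a multiple of a period -/
theorem orbit_sum_mul (s : A ≃+* A) (m : ℕ) (x : A) (hsm : ∀ r : A, (s ^ m) r = r)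
    (htr : ∑ t ∈ Finset.range m, (s ^ t) x = 1) (k : ℕ) :
    ∑ t ∈ Finset.range (m * k), (s ^ t) x = k := by
  rw [sum_range_mul]
  have h1 : ∀ l ∈ Finset.range k, ∑ i ∈ Finset.range m, (s ^ (m * l + i)) x = 1 := by
    intro l _
    rw [← htr]
    apply Finset.sum_congr rfl
    intro i _
    rw [pow_add_apply, pow_mul_apply_of_fixed s m _ (hsm _)]
  rw [Finset.sum_congr rfl h1]
  simp

/-- additive Hilbert 90 with an explicit solution -/
theorem hilbert90 (s : A ≃+* A) (m : ℕ) (x w : A) (hsm : ∀ r : A, (s ^ m) r = r)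
    (htr : ∑ t ∈ Finset.range m, (s ^ t) x = 1)
    (hw : ∑ t ∈ Finset.range m, (s ^ t) w = 0) :
    s (-∑ k ∈ Finset.range m, (∑ i ∈ Finset.range k, (s ^ i) w) * (s ^ k) x) -
      (-∑ k ∈ Finset.range m, (∑ i ∈ Finset.range k, (s ^ i) w) * (s ^ k) x) = w := by
  have hsW : ∀ k, s (∑ i ∈ Finset.range k, (s ^ i) w) =
      (∑ i ∈ Finset.range (k + 1), (s ^ i) w) - w := by
    intro k
    rw [Finset.sum_range_succ', map_sum, pow_zero_apply, add_sub_cancel_right]
    apply Finset.sum_congr rfl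
    intro i _
    rw [pow_succ_apply']
  have h1 : s (∑ k ∈ Finset.range m, (∑ i ∈ Finset.range k, (s ^ i) w) * (s ^ k) x) =
      ∑ k ∈ Finset.range m, (∑ i ∈ Finset.range (k + 1), (s ^ i) w) * (s ^ (k + 1)) x -
        w * ∑ k ∈ Finset.range m, (s ^ (k + 1)) x := by
    rw [map_sum, Finset.mul_sum, ← Finset.sum_sub_distrib]
    apply Finset.sum_congr rfl
    intro k _
    rw [map_mul, hsW, ← pow_succ_apply']
    ring
  have h2 : ∑ k ∈ Finset.range m, (s ^ (k + 1)) x = 1 := by
    rw [← htr]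
    have h3 := map_orbit_sum s m x (hsm x)
    rw [map_sum] at h3
    rw [← h3]
    apply Finset.sum_congr rfl
    intro k _
    rw [pow_succ_apply']
  have h4 : ∑ k ∈ Finset.range m, (∑ i ∈ Finset.range (k + 1), (s ^ i) w) * (s ^ (k + 1)) x =
      ∑ k ∈ Finset.range m, (∑ i ∈ Finset.range k, (s ^ i) w) * (s ^ k) x := by
    have h5 := Finset.sum_range_succ (fun k => (∑ i ∈ Finset.range k, (s ^ i) w) * (s ^ k) x) m
    have h6 := Finset.sum_range_succ' (fun k => (∑ i ∈ Finset.range k, (s ^ i) w) * (s ^ k) x) m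
    simp only [Finset.range_zero, Finset.sum_empty, zero_mul, add_zero] at h6
    rw [hw, zero_mul, add_zero] at h5
    rw [← h5, ← h6]
  rw [map_neg, h1, h2, h4]
  ring

/-- the sum of the `(p-1)`-st powers of all translates -/
theorem sum_pow_translates (p : ℕ) [Fact p.Prime] [CharP A p] (Y : A) :
    ∑ k ∈ Finset.range p, (Y + (k : A)) ^ (p - 1) = -1 := by
  have hp : p.Prime := Fact.out
  have hpoly : (∑ a : ZMod p, ((X : (ZMod p)[X]) + C a) ^ (p - 1)) = -1 := by
    have h1 : ∀ a : ZMod p, ((X : (ZMod p)[X]) + C a) ^ (p - 1) =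
        ∑ k ∈ Finset.range (p - 1 + 1), X ^ k * C (a ^ (p - 1 - k)) *
          (((p - 1).choose k : ℕ) : (ZMod p)[X]) := by
      intro a
      rw [add_pow]
      apply Finset.sum_congr rfl
      intro k _
      rw [C_pow]
    simp_rw [h1]
    rw [Finset.sum_comm, Finset.sum_range_succ']
    have h2 : ∀ k ∈ Finset.range (p - 1), (∑ a : ZMod p, (X : (ZMod p)[X]) ^ (k + 1) *
        C (a ^ (p - 1 - (k + 1))) * (((p - 1).choose (k + 1) : ℕ) : (ZMod p)[X])) = 0 := by
      intro k hk
      rw [← Finset.sum_mul, ← Finset.mul_sum, ← map_sum,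
        FiniteField.sum_pow_lt_card_sub_one (ZMod p) (p - 1 - (k + 1)) (by
          rw [ZMod.card]
          have := Finset.mem_range.1 hk
          omega)]
      simp
    rw [Finset.sum_eq_zero h2, zero_add]
    have h3 : (∑ a : ZMod p, a ^ (p - 1)) = -1 := by
      have h4 : ∀ a : ZMod p, a ^ (p - 1) = 1 - (if a = 0 then 1 else 0) := by
        intro a
        by_cases ha : a = 0
        · subst ha
          rw [zero_pow (by have := hp.two_le; omega)]
          simp
        · rw [ZMod.pow_card_sub_one_eq_one ha]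
          simp [ha]
      simp_rw [h4]
      rw [Finset.sum_sub_distrib]
      simp [ZMod.card]
    rw [← Finset.sum_mul, ← Finset.mul_sum, ← map_sum]
    simp only [Nat.sub_zero]
    rw [h3]
    simp
  let φ : ZMod p →+* A := ZMod.castHom (dvd_refl p) A
  have h1 := congrArg (fun q : (ZMod p)[X] => q.eval₂ φ Y) hpoly
  rw [eval₂_finsetSum] at h1
  simp only [eval₂_pow, eval₂_add, eval₂_X, eval₂_C, eval₂_neg, eval₂_one] at h1
  rw [← h1]
  refine Finset.sum_bij (fun (k : ℕ) _ => (k : ZMod p)) ?_ ?_ ?_ ?_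
  · intro k _; exact Finset.mem_univ _
  · intro a ha c hc h
    have h2 : a ≡ c [MOD p] := (ZMod.natCast_eq_natCast_iff a c p).1 h
    exact Nat.ModEq.eq_of_lt_of_lt h2 (Finset.mem_range.1 ha) (Finset.mem_range.1 hc)
  · intro a _
    exact ⟨a.val, Finset.mem_range.2 (ZMod.val_lt a), ZMod.natCast_zmod_val a⟩
  · intro k _
    rw [map_natCast]

end sums

/-- `1 - k ^ (p-1)` detects divisibility by `p`. -/
theorem one_sub_pow (p : ℕ) [Fact p.Prime] {κ : Type*} [CommRing κ] (hκ : (p : κ) = 0) (k : ℕ) :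
    1 - (k : κ) ^ (p - 1) = if p ∣ k then 1 else 0 := by
  have hp : p.Prime := Fact.out
  have h2 := hp.two_le
  split_ifs with h
  · obtain ⟨c, rfl⟩ := h
    rw [Nat.cast_mul, hκ, zero_mul, zero_pow (by omega), sub_zero]
  · have h1 : (k : ZMod p) ≠ 0 := by
      intro h0
      exact h ((ZMod.natCast_eq_zero_iff k p).1 h0)
    have h3 := ZMod.pow_card_sub_one_eq_one h1
    have h4 : 1 ≡ k ^ (p - 1) [MOD p] := by
      rw [← ZMod.natCast_eq_natCast_iff]
      push_cast
      rw [h3]
    have hk : 0 < k := Nat.pos_of_ne_zero (by rintro rfl; exact h (dvd_zero p))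
    have h5 : p ∣ k ^ (p - 1) - 1 := (Nat.modEq_iff_dvd' (Nat.one_le_iff_ne_zero.2
      (pow_pos hk _).ne')).1 h4
    obtain ⟨c, hc⟩ := h5
    have h6 : k ^ (p - 1) = p * c + 1 := by
      have := pow_pos hk (p - 1)
      omega
    have h7 : (k : κ) ^ (p - 1) = 1 := by
      have := congrArg (Nat.cast : ℕ → κ) h6
      push_cast at this
      rw [this, hκ]
      ring
    rw [h7, sub_self]

/-- the sum of the indicator of multiples of `m` -/
theorem sum_indicator {κ : Type*} [CommRing κ] (m : ℕ) (hm : 0 < m) (k : ℕ) :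
    ∑ i ∈ Finset.range (m * k), (if m ∣ i then (1 : κ) else 0) = k := by
  rw [sum_range_mul]
  have h1 : ∀ l ∈ Finset.range k, ∑ i ∈ Finset.range m, (if m ∣ m * l + i then (1 : κ) else 0) = 1 := by
    intro l _
    rw [Finset.sum_eq_single_of_mem 0 (Finset.mem_range.2 hm)]
    · simp
    · intro i hi hi0
      have h2 : ¬ m ∣ m * l + i := by
        intro h
        have h3 : m ∣ i := (Nat.dvd_add_right (Dvd.intro l rfl)).1 h
        have := Nat.le_of_dvd (Nat.pos_of_ne_zero hi0) h3
        have := Finset.mem_range.1 hi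
        omega
      rw [if_neg h2]
  rw [Finset.sum_congr rfl h1]
  simp

end Pool.Agent.Helper28.MP
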