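import Pool.Agent.Helper21.MP.Star

/-!
# Pairs of cells with a common vertex
-/

set_option autoImplicit false

open Finset

namespace Pool.Agent.Helper28.MP

open Pool.Agent.Helper21.MP

open Classical in
theorem cells {n : ℕ} {α : Type} [Fintype α] (Q : Finset (Fin n × Fin n))
    (g : α → Fin n × Fin n) (hg : Function.Injective g)
    (hc : ∀ x, ((g x).1 : ℕ) % 3 = 0 ∧ ((g x).2 : ℕ) % 3 ≠ 0) :
    (univ.filter fun x => Has Q (g x).1 (g x).2).card ≤ Q.card := by
  refine Finset.card_le_card_of_injOn (fun x => if g x ∈ Q then g x else (g x).swap) ?_ ?_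
  · intro x hx
    rw [Finset.mem_coe, Finset.mem_filter] at hx
    rw [Finset.mem_coe]
    change (if g x ∈ Q then g x else (g x).swap) ∈ Q
    by_cases h : g x ∈ Q
    · rwa [if_pos h]
    · rw [if_neg h]
      rcases hx.2 with h1 | h1
      · exact absurd h1 h
      · exact h1
  · intro x _ y _ hxy
    change (if g x ∈ Q then g x else (g x).swap) = (if g y ∈ Q then g y else (g y).swap) at hxy
    have hx := hc x
    have hy := hc y
    by_cases h : g x ∈ Q
    · by_cases h' : g y ∈ Q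
      · rw [if_pos h, if_pos h'] at hxy
        exact hg hxy
      · rw [if_pos h, if_neg h'] at hxy
        rw [hxy] at hx
        exact absurd hx.1 hy.2
    · by_cases h' : g y ∈ Q
      · rw [if_neg h, if_pos h'] at hxy
        rw [← hxy] at hy
        exact absurd hy.1 hx.2
      · rw [if_neg h, if_neg h'] at hxy
        exact hg (Prod.swap_injective hxy)

open Classical in
theorem touched_le {n : ℕ} (Q : Finset (Fin n × Fin n)) :
    ∑ i : {i : Fin n // (i : ℕ) % 3 = 0}, ∑ j : {j : Fin n // (j : ℕ) % 3 = 1},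
      ((univ.filter fun k : {k : Fin n // (k : ℕ) % 3 = 2} =>
        Has Q i.1 j.1 ∧ Has Q i.1 k.1).card : ℝ) ≤ (Q.card : ℝ) * min (Q.card : ℝ) n := by
  have h1 : ∀ (i : {i : Fin n // (i : ℕ) % 3 = 0}) (j : {j : Fin n // (j : ℕ) % 3 = 1}),
      (univ.filter fun k : {k : Fin n // (k : ℕ) % 3 = 2} =>
        Has Q i.1 j.1 ∧ Has Q i.1 k.1).card ≤ if Has Q i.1 j.1 then min Q.card n else 0 := by
    intro i j
    by_cases h : Has Q i.1 j.1
    · rw [if_pos h]
      refine le_min ?_ ?_
      · refine le_trans (Finset.card_le_card fun k hk => ?_)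
          (cells Q (fun k : {k : Fin n // (k : ℕ) % 3 = 2} => (i.1, k.1)) (fun a b hab => ?_)
            fun k => ⟨i.2, ?_⟩)
        · rw [Finset.mem_filter] at hk ⊢
          exact ⟨Finset.mem_univ _, hk.2.2⟩
        · exact Subtype.ext (Prod.ext_iff.1 hab).2
        · change (k.1 : ℕ) % 3 ≠ 0
          rw [k.2]
          norm_num
      · refine (Finset.card_le_univ _).trans ?_
        refine (Fintype.card_subtype_le _).trans ?_
        rw [Fintype.card_fin]
    · rw [if_neg h, Nat.le_zero, Finset.card_eq_zero, Finset.filter_eq_empty_iff]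
      rintro k _ ⟨h2, _⟩
      exact h h2
  have h2 : ∑ i : {i : Fin n // (i : ℕ) % 3 = 0}, ∑ j : {j : Fin n // (j : ℕ) % 3 = 1},
      (if Has Q i.1 j.1 then min Q.card n else 0) ≤ Q.card * min Q.card n := by
    rw [← Finset.sum_product', ← Finset.sum_filter, Finset.sum_const, smul_eq_mul]
    refine Nat.mul_le_mul_right _ ?_
    refine le_trans (le_of_eq ?_) (cells Q (fun x : {i : Fin n // (i : ℕ) % 3 = 0} ×
      {j : Fin n // (j : ℕ) % 3 = 1} => (x.1.1, x.2.1)) (fun a b hab => ?_) fun x => ⟨x.1.2, ?_⟩)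
    · rw [Finset.univ_product_univ]
    · exact Prod.ext (Subtype.ext (Prod.ext_iff.1 hab).1) (Subtype.ext (Prod.ext_iff.1 hab).2)
    · change (x.2.1 : ℕ) % 3 ≠ 0
      rw [x.2.2]
      norm_num
  have h3 : ∑ i : {i : Fin n // (i : ℕ) % 3 = 0}, ∑ j : {j : Fin n // (j : ℕ) % 3 = 1},
      (univ.filter fun k : {k : Fin n // (k : ℕ) % 3 = 2} =>
        Has Q i.1 j.1 ∧ Has Q i.1 k.1).card ≤ Q.card * min Q.card n :=
    (Finset.sum_le_sum fun i _ => Finset.sum_le_sum fun j _ => h1 i j).trans h2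
  have h4 : ((∑ i : {i : Fin n // (i : ℕ) % 3 = 0}, ∑ j : {j : Fin n // (j : ℕ) % 3 = 1},
      (univ.filter fun k : {k : Fin n // (k : ℕ) % 3 = 2} =>
        Has Q i.1 j.1 ∧ Has Q i.1 k.1).card : ℕ) : ℝ) ≤ ((Q.card * min Q.card n : ℕ) : ℝ) :=
    Nat.cast_le.2 h3
  push_cast at h4
  exact h4

end Pool.Agent.Helper28.MP
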